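import Mathlib

open Set Filter Topology Finset BoundedContinuousFunction

namespace Pool.Agent.Results.MP_68f07c_an.Counter

/-- The closed linear span `[u_n]`. -/
def cspan {X : Type} [NormedAddCommGroup X] [NormedSpace ℝ X] (u : ℕ → X) : Submodule ℝ X :=
  (Submodule.span ℝ (Set.range u)).topologicalClosure

/-- The series `∑ a_n u_n` converges to `y`. -/
def SumsTo {X : Type} [NormedAddCommGroup X] [NormedSpace ℝ X] (a : ℕ → ℝ) (u : ℕ → X) (y : X) : Prop :=
  Tendsto (fun n => ∑ i ∈ range n, a i • u i) atTop (𝓝 y)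

/-- `u` is a Schauder basis of its closed linear span. -/
def Basic {X : Type} [NormedAddCommGroup X] [NormedSpace ℝ X] (u : ℕ → X) : Prop :=
  ∀ y ∈ cspan u, ∃! a : ℕ → ℝ, SumsTo a u y

/-- Equivalent sequences. -/
def Equivalent {X Y : Type} [NormedAddCommGroup X] [NormedSpace ℝ X] [NormedAddCommGroup Y]
    [NormedSpace ℝ Y] (u : ℕ → X) (v : ℕ → Y) : Prop :=
  ∀ a : ℕ → ℝ, (∃ y, SumsTo a u y) ↔ ∃ z, SumsTo a v z

abbrev L1 := lp (fun _ : ℕ => ℝ) 1

lemma l1_hasSum (a : L1) : HasSum (fun i => |a i|) ‖a‖ := by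
  simpa using lp.hasSum_norm (p := 1) (by simp) a

lemma basic_of {X : Type} [NormedAddCommGroup X] [NormedSpace ℝ X] [CompleteSpace X] (u : ℕ → X)
    (hC : ∀ n, ‖u n‖ ≤ 2) (hc : ∀ (a : ℕ → ℝ) n, ∑ i ∈ range n, |a i| ≤ ‖∑ i ∈ range n, a i • u i‖) :
    Basic u := by
  have hb : ∀ (a : L1) i, ‖a i • u i‖ ≤ |a i| * 2 := fun a i => by
    rw [norm_smul]
    exact mul_le_mul_of_nonneg_left (hC i) (abs_nonneg _)
  have hs : ∀ a : L1, Summable fun i => a i • u i := fun a =>
    Summable.of_norm_bounded ((l1_hasSum a).summable.mul_right 2) (hb a)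
  let T : L1 →L[ℝ] X := LinearMap.mkContinuous
    { toFun := fun a => ∑' i, a i • u i
      map_add' := fun a b => by
        rw [← (hs a).tsum_add (hs b)]
        simp [add_smul]
      map_smul' := fun c a => by
        rw [RingHom.id_apply, ← (hs a).tsum_const_smul]
        simp [mul_smul] } 2 fun a => by
      rw [mul_comm]
      exact tsum_of_norm_bounded ((l1_hasSum a).mul_right 2) (hb a)
  have hT : ∀ a : L1, SumsTo a u (T a) := fun a => (hs a).hasSum.tendsto_sum_nat
  have hlow : ∀ a : L1, ‖a‖ ≤ (1 : NNReal) * ‖T a‖ := fun a => by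
    rw [NNReal.coe_one, one_mul]
    exact le_of_tendsto_of_tendsto' (l1_hasSum a).tendsto_sum_nat (hT a).norm (hc a)
  have hcl : IsClosed (Set.range T) := (T.antilipschitz_of_bound hlow).isClosed_range T.uniformContinuous
  intro y hy
  have hsub : Submodule.span ℝ (Set.range u) ≤ LinearMap.range T.toLinearMap := by
    rw [Submodule.span_le]
    rintro _ ⟨n, rfl⟩
    refine ⟨lp.single 1 n 1, ?_⟩
    show ∑' i, (lp.single 1 n (1 : ℝ) : L1) i • u i = u n
    rw [tsum_eq_single n fun i hi => by simp [lp.single_apply, Pi.single_eq_of_ne hi]]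
    simp
  obtain ⟨a, rfl⟩ : y ∈ Set.range T := closure_minimal hsub hcl hy
  refine ⟨a, hT a, fun b hb => funext fun j => ?_⟩
  have h1 := (Tendsto.sub hb (hT a)).norm
  rw [sub_self, norm_zero] at h1
  have h2 : |b j - a j| ≤ 0 := ge_of_tendsto h1 (eventually_atTop.2 ⟨j + 1, fun n hn => by
    rw [← sum_sub_distrib]
    simp only [← sub_smul]
    exact (single_le_sum (f := fun i => |b i - a i|) (fun i _ => abs_nonneg _) (mem_range.2 hn)).trans
      (hc (fun i => b i - a i) n)⟩)
  exact sub_eq_zero.1 (abs_nonpos_iff.1 h2)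

noncomputable def W : Submodule ℝ (ℕ →ᵇ ℝ) where
  carrier := {g | ∀ n, Tendsto (fun k : ℕ => g (n + k.factorial)) atTop (𝓝 (g n))}
  add_mem' := fun hf hg n => (hf n).add (hg n)
  zero_mem' := fun n => tendsto_const_nhds
  smul_mem' := fun c f hf n => (hf n).const_mul c

lemma W_closed : IsClosed (W : Set (ℕ →ᵇ ℝ)) := by
  refine isClosed_of_closure_subset fun f hf n => ?_
  rw [Metric.tendsto_atTop]
  intro ε hε
  obtain ⟨g, hg, hd⟩ := Metric.mem_closure_iff.1 hf (ε / 3) (by linarith)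
  obtain ⟨N, hN⟩ := Metric.tendsto_atTop.1 (hg n) (ε / 3) (by linarith)
  refine ⟨N, fun k hk => ?_⟩
  have h : ∀ k, |f k - g k| < ε / 3 := fun k => (dist_coe_le_dist k).trans_lt hd
  have h1 := abs_lt.1 (h n)
  have h2 := abs_lt.1 (h (n + k.factorial))
  have h3 := abs_lt.1 (show |g (n + k.factorial) - g n| < ε / 3 from hN k hk)
  rw [Real.dist_eq, abs_lt]
  constructor <;> linarith

lemma sgn (a : ℕ → ℝ) (n : ℕ) : ∃ g : W, ‖g‖ ≤ 1 ∧ ∀ i < n, a i * g.1 i = |a i| := by
  have hb : ∀ i, ‖(if 0 ≤ a (i % (n + 1)) then 1 else -1 : ℝ)‖ ≤ 1 := fun i => by split_ifs <;> simp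
  refine ⟨⟨ofNormedAddCommGroupDiscrete _ 1 hb, fun m => ?_⟩, (norm_le zero_le_one).2 hb, fun i hi => ?_⟩
  · refine tendsto_atTop_of_eventually_const (i₀ := n + 1) fun k hk => ?_
    obtain ⟨c, hc⟩ := Nat.dvd_factorial (Nat.succ_pos n) hk
    simp [hc]
  · simp only [coe_ofNormedAddCommGroupDiscrete, Nat.mod_eq_of_lt (hi.trans n.lt_succ_self)]
    split_ifs with h
    · simp [abs_of_nonneg h]
    · simp [abs_of_neg (not_le.1 h)]

def E : Type := L1 × W

noncomputable instance : NormedAddCommGroup E := (inferInstance : NormedAddCommGroup (L1 × W))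

noncomputable instance : NormedSpace ℝ E := (inferInstance : NormedSpace ℝ (L1 × W))

instance : CompleteSpace E :=
  haveI : CompleteSpace W := W_closed.completeSpace_coe
  (inferInstance : CompleteSpace (L1 × W))

lemma nfst (z : E) : ‖z.1‖ ≤ ‖z‖ := norm_fst_le (E := L1) (F := W) z

lemma nsnd (z : E) : ‖z.2‖ ≤ ‖z‖ := norm_snd_le (E := L1) (F := W) z

noncomputable def xs (n : ℕ) : E := (lp.single 1 n 1, 0)

noncomputable def fs (n : ℕ) : StrongDual ℝ E :=
  LinearMap.mkContinuous
    { toFun := fun z : E => z.1 n + z.2.1 n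
      map_add' := fun a b => add_add_add_comm _ _ _ _
      map_smul' := fun c a => (mul_add c _ _).symm } 2 fun z => by
    have h1 : ‖z.1 n‖ ≤ ‖z‖ := (lp.norm_apply_le_norm one_ne_zero z.1 n).trans (nfst z)
    have h2 : ‖z.2.1 n‖ ≤ ‖z‖ := (norm_coe_le_norm z.2.1 n).trans (nsnd z)
    exact (norm_add_le _ _).trans (by linarith)

lemma fs_apply (n : ℕ) (z : E) : fs n z = z.1 n + z.2.1 n := rfl

lemma fs_low (a : ℕ → ℝ) (n : ℕ) : ∑ i ∈ range n, |a i| ≤ ‖∑ i ∈ range n, a i • fs i‖ := by
  obtain ⟨g, hg, h⟩ := sgn a n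
  have h1 := (∑ i ∈ range n, a i • fs i).unit_le_opNorm ((0, g) : L1 × W)
    (show ‖((0, g) : L1 × W)‖ ≤ 1 by simpa using hg)
  refine le_trans (le_of_eq ?_) ((le_abs_self _).trans h1)
  simp only [ContinuousLinearMap.sum_apply, ContinuousLinearMap.smul_apply, fs_apply]
  exact sum_congr rfl fun i hi => by simp [h i (mem_range.1 hi)]

/-- A biorthogonal system with both sequences basic and `[x_n] + [f_n]_⊥` closed for which `f_n` is not
equivalent to the coefficient functionals `φ_n = f_n|[x_n]`. -/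
theorem result : ∃ (E : Type) (_ : NormedAddCommGroup E) (_ : NormedSpace ℝ E) (_ : CompleteSpace E)
    (x : ℕ → E) (f : ℕ → StrongDual ℝ E), (∀ i j, f i (x j) = if i = j then 1 else 0) ∧ Basic x ∧ Basic f ∧
    IsClosed {z : E | ∃ a ∈ cspan x, ∃ b, (∀ g ∈ cspan f, g b = 0) ∧ z = a + b} ∧
    ¬ Equivalent f (fun n => (f n).comp (cspan x).subtypeL) := by
  refine ⟨E, inferInstance, inferInstance, inferInstance, xs, fs, fun i j => ?_, ?_, ?_, ?_, fun h => ?_⟩
  · simp [fs_apply, xs, lp.single_apply, Pi.single_apply]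
  · refine basic_of _ (fun n => show ‖((lp.single 1 n 1, 0) : L1 × W)‖ ≤ 2 by simp) fun a n => ?_
    refine le_trans ?_ (nfst _)
    refine le_trans (le_of_eq (sum_congr rfl fun i hi => ?_))
      (sum_le_hasSum (range n) (fun i _ => abs_nonneg _) (l1_hasSum _))
    rw [show (∑ i ∈ range n, a i • xs i).1 = ∑ i ∈ range n, a i • lp.single 1 i (1 : ℝ) from
      Prod.fst_sum, lp.coeFn_sum, Finset.sum_apply]
    simp [lp.single_apply, Pi.single_apply, mem_range.1 hi]
  · exact basic_of _ (fun n => LinearMap.mkContinuous_norm_le _ zero_le_two _) fs_low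
  · have : {z : E | ∃ a ∈ cspan xs, ∃ b, (∀ g ∈ cspan fs, g b = 0) ∧ z = a + b} = cspan xs := by
      refine subset_antisymm ?_ fun z hz => ⟨z, hz, 0, fun g _ => map_zero g, (add_zero z).symm⟩
      rintro _ ⟨a, ha, b, hb, rfl⟩
      have h1 : ∀ n, b.1 n + b.2.1 n = 0 := fun n =>
        hb (fs n) (Submodule.le_topologicalClosure _ (Submodule.subset_span ⟨n, rfl⟩))
      have h2 : Tendsto (fun n => b.1 n) atTop (𝓝 0) :=
        tendsto_zero_iff_norm_tendsto_zero.2 (l1_hasSum b.1).summable.tendsto_atTop_zero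
      have h3 : ∀ n, b.2.1 n = 0 := fun n => by
        have h4 : Tendsto (fun k : ℕ => n + k.factorial) atTop atTop :=
          tendsto_atTop_mono (fun k => (Nat.self_le_factorial k).trans (Nat.le_add_left _ _)) tendsto_id
        have h5 := (h2.comp h4).add (b.2.2 n)
        simp only [Function.comp, h1, zero_add] at h5
        exact tendsto_nhds_unique h5 tendsto_const_nhds
      have hb0 : b = 0 := Prod.ext (lp.ext (funext fun n => show b.1 n = 0 by simpa [h3] using h1 n))
        (Subtype.ext (BoundedContinuousFunction.ext h3))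
      simpa [hb0] using ha
    rw [this]
    exact Submodule.isClosed_topologicalClosure _
  have h2 : ∀ z ∈ cspan xs, z.2 = 0 := fun z hz => by
    have : Submodule.span ℝ (Set.range xs) ≤ LinearMap.ker (LinearMap.snd ℝ L1 W) := by
      rw [Submodule.span_le]
      rintro _ ⟨n, rfl⟩
      rfl
    exact closure_minimal this (isClosed_eq continuous_snd continuous_const) hz
  obtain ⟨y, hy⟩ := (h fun i => 1 / (i + 1)).2 (cauchySeq_tendsto_of_complete (cauchySeq_of_le_tendsto_0'
    (s := fun n => ∑ i ∈ range n, (1 / (i + 1) : ℝ) • (fs i).comp (cspan xs).subtypeL) (fun n : ℕ => (1 / (n + 1) : ℝ)) (fun n m hnm => by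
      rw [dist_comm]
      refine le_trans (le_of_eq (dist_eq_norm (E := StrongDual ℝ (cspan xs)) _ _)) ?_
      rw [← sum_Ico_eq_sub _ hnm]
      refine ContinuousLinearMap.opNorm_le_bound _ (by positivity) fun z => ?_
      simp only [ContinuousLinearMap.sum_apply, ContinuousLinearMap.smul_apply, ContinuousLinearMap.comp_apply,
        Submodule.subtypeL_apply, fs_apply, h2 z.1 z.2]
      refine (norm_sum_le _ _).trans ((sum_le_sum (g := fun i => (1 / (n + 1) : ℝ) * |z.1.1 i|) fun i hi => ?_).trans ?_)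
      · rw [norm_smul, Real.norm_of_nonneg (by positivity)]
        refine mul_le_mul (one_div_le_one_div_of_le (by positivity) ?_) (by simp) (norm_nonneg _) (by positivity)
        exact_mod_cast Nat.succ_le_succ (mem_Ico.1 hi).1
      · rw [← mul_sum]
        exact mul_le_mul_of_nonneg_left ((sum_le_hasSum _ (fun i _ => abs_nonneg _) (l1_hasSum _)).trans
          (nfst z.1)) (by positivity)) tendsto_one_div_add_atTop_nhds_zero_nat))
  refine not_tendsto_atTop_of_tendsto_nhds hy.norm (tendsto_atTop_mono (fun n => ?_)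
    Real.tendsto_sum_range_one_div_nat_succ_atTop)
  exact (sum_le_sum fun i _ => le_abs_self _).trans (fs_low _ n)

end Pool.Agent.Results.MP_68f07c_an.Counter
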